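import Mathlib

/-!
# MP_ba4d4a_gt: a tetrahedron whose longest edge avoids the vertex of largest curvature

The tetrahedron with vertices `(0,0,8)`, `(0,5,0)`, `(-5,0,0)`, `(5,0,0)`. Its unique longest
edge joins the last two, of length `10`; the curvature at `(0,0,8)` is larger than at both
endpoints of that edge.
-/

open scoped EuclideanGeometry

namespace Pool.Agent.Results.MP_ba4d4a_gt.Counterexample

/-- Euclidean three-space -/
abbrev E3 : Type := EuclideanSpace ℝ (Fin 3)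

/-- The curvature at the vertex `v` of the tetrahedron with vertices `p 0, …, p 3`: `2π` minus
the sum of the face angles at `p v`, one for each pair `i < j` of further vertices. -/
noncomputable def curvature (p : Fin 4 → E3) (v : Fin 4) : ℝ :=
  2 * Real.pi -
    ∑ ij ∈ (Finset.univ : Finset (Fin 4 × Fin 4)).filter
      (fun ij => ij.1 < ij.2 ∧ ij.1 ≠ v ∧ ij.2 ≠ v), ∠ (p ij.1) (p v) (p ij.2)

/-- The edge `{i, j}` is a longest edge. -/
def IsLongestEdge (p : Fin 4 → E3) (i j : Fin 4) : Prop :=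
  i ≠ j ∧ ∀ k l, dist (p k) (p l) ≤ dist (p i) (p j)

/-- `v` is a vertex of largest curvature. -/
def IsLargest (p : Fin 4 → E3) (v : Fin 4) : Prop :=
  ∀ u, curvature p u ≤ curvature p v

/-- the vertices -/
noncomputable def P : Fin 4 → E3 :=
  ![!₂[0, 0, 8], !₂[0, 5, 0], !₂[-5, 0, 0], !₂[5, 0, 0]]

lemma P_indep : AffineIndependent ℝ P := by
  rw [affineIndependent_iff_of_fintype]
  intro w hw h
  rw [Finset.weightedVSub_eq_linear_combination Finset.univ hw] at h
  have h0 := congrArg (fun x : E3 => x 0) h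
  have h1 := congrArg (fun x : E3 => x 1) h
  have h2 := congrArg (fun x : E3 => x 2) h
  simp [P, Fin.sum_univ_four] at h0 h1 h2
  simp [Fin.sum_univ_four] at hw
  intro i
  fin_cases i
  · exact h2
  · exact h1
  · show w 2 = 0
    linarith
  · show w 3 = 0
    linarith

lemma angle_eq (a b c : E3) :
    ∠ a b c = Real.arccos (((a 0 - b 0) * (c 0 - b 0) + (a 1 - b 1) * (c 1 - b 1) +
      (a 2 - b 2) * (c 2 - b 2)) /
      (√((a 0 - b 0) ^ 2 + (a 1 - b 1) ^ 2 + (a 2 - b 2) ^ 2) *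
       √((c 0 - b 0) ^ 2 + (c 1 - b 1) ^ 2 + (c 2 - b 2) ^ 2))) := by
  unfold EuclideanGeometry.angle InnerProductGeometry.angle
  rw [EuclideanSpace.norm_eq, EuclideanSpace.norm_eq]
  congr 1
  congr 1
  · simp [PiLp.inner_apply, Fin.sum_univ_three]
    ring
  · simp [Fin.sum_univ_three]

lemma dist_eq' (a b : E3) :
    dist a b = √((a 0 - b 0) ^ 2 + (a 1 - b 1) ^ 2 + (a 2 - b 2) ^ 2) := by
  rw [EuclideanSpace.dist_eq]
  simp [Fin.sum_univ_three, Real.dist_eq, sq_abs]

lemma filter0 : (Finset.univ : Finset (Fin 4 × Fin 4)).filter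
    (fun ij => ij.1 < ij.2 ∧ ij.1 ≠ (0 : Fin 4) ∧ ij.2 ≠ (0 : Fin 4)) =
    {(1, 2), (1, 3), (2, 3)} := by decide

lemma filter2 : (Finset.univ : Finset (Fin 4 × Fin 4)).filter
    (fun ij => ij.1 < ij.2 ∧ ij.1 ≠ (2 : Fin 4) ∧ ij.2 ≠ (2 : Fin 4)) =
    {(0, 1), (0, 3), (1, 3)} := by decide

lemma filter3 : (Finset.univ : Finset (Fin 4 × Fin 4)).filter
    (fun ij => ij.1 < ij.2 ∧ ij.1 ≠ (3 : Fin 4) ∧ ij.2 ≠ (3 : Fin 4)) =
    {(0, 1), (0, 2), (1, 2)} := by decide

lemma curv0 : curvature P 0 = 2 * Real.pi -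
    (∠ (P 1) (P 0) (P 2) + ∠ (P 1) (P 0) (P 3) + ∠ (P 2) (P 0) (P 3)) := by
  unfold curvature
  rw [filter0]
  simp
  ring

lemma curv2 : curvature P 2 = 2 * Real.pi -
    (∠ (P 0) (P 2) (P 1) + ∠ (P 0) (P 2) (P 3) + ∠ (P 1) (P 2) (P 3)) := by
  unfold curvature
  rw [filter2]
  simp
  ring

lemma curv3 : curvature P 3 = 2 * Real.pi -
    (∠ (P 0) (P 3) (P 1) + ∠ (P 0) (P 3) (P 2) + ∠ (P 1) (P 3) (P 2)) := by
  unfold curvature
  rw [filter3]
  simp
  ring

lemma a102 : ∠ (P 1) (P 0) (P 2) = Real.arccos (64 / 89) := by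
  rw [angle_eq]
  simp [P]
  norm_num

lemma a103 : ∠ (P 1) (P 0) (P 3) = Real.arccos (64 / 89) := by
  rw [angle_eq]
  simp [P]
  norm_num

lemma a203 : ∠ (P 2) (P 0) (P 3) = Real.arccos (39 / 89) := by
  rw [angle_eq]
  simp [P]
  norm_num

lemma sqrt100 : √(100 : ℝ) = 10 := by
  rw [show (100 : ℝ) = 10 ^ 2 by norm_num]
  exact Real.sqrt_sq (by norm_num)

lemma a021 : ∠ (P 0) (P 2) (P 1) = Real.arccos (25 / (√89 * √50)) := by
  rw [angle_eq]
  congr 1
  simp [P]
  norm_num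

lemma a023 : ∠ (P 0) (P 2) (P 3) = Real.arccos (50 / (√89 * 10)) := by
  rw [angle_eq]
  congr 1
  simp [P]
  norm_num

lemma a123 : ∠ (P 1) (P 2) (P 3) = Real.arccos (50 / (√50 * 10)) := by
  rw [angle_eq]
  congr 1
  simp [P]
  norm_num

lemma a031 : ∠ (P 0) (P 3) (P 1) = Real.arccos (25 / (√89 * √50)) := by
  rw [angle_eq]
  congr 1
  simp [P]
  norm_num

lemma a032 : ∠ (P 0) (P 3) (P 2) = Real.arccos (50 / (√89 * 10)) := by
  rw [angle_eq]
  congr 1
  simp [P]
  norm_num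

lemma a132 : ∠ (P 1) (P 3) (P 2) = Real.arccos (50 / (√50 * 10)) := by
  rw [angle_eq]
  congr 1
  simp [P]
  norm_num

lemma arccos_lt {x y : ℝ} (hy : -1 ≤ y) (hx : x ≤ 1) (h : y < x) :
    Real.arccos x < Real.arccos y := Real.arccos_lt_arccos hy h hx

lemma s89 : (9.43 : ℝ) < √89 ∧ √89 < 9.44 := by
  constructor
  · exact Real.lt_sqrt_of_sq_lt (by norm_num)
  · rw [Real.sqrt_lt' (by norm_num)]; norm_num

lemma s50 : (7.07 : ℝ) < √50 ∧ √50 < 7.08 := by
  constructor
  · exact Real.lt_sqrt_of_sq_lt (by norm_num)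
  · rw [Real.sqrt_lt' (by norm_num)]; norm_num

/-- `∠102 < ∠123` -/
lemma c1 : Real.arccos (64 / 89) < Real.arccos (50 / (√50 * 10)) := by
  have h := s50
  apply arccos_lt
  · have : (0:ℝ) ≤ 50 / (√50 * 10) := by positivity
    linarith
  · norm_num
  · rw [div_lt_div_iff₀ (by linarith) (by norm_num)]
    nlinarith [h.1]

/-- `∠103 < ∠023` -/
lemma c2 : Real.arccos (64 / 89) < Real.arccos (50 / (√89 * 10)) := by
  have h := s89
  apply arccos_lt
  · have : (0:ℝ) ≤ 50 / (√89 * 10) := by positivity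
    linarith
  · norm_num
  · rw [div_lt_div_iff₀ (by linarith) (by norm_num)]
    nlinarith [h.1]

/-- `∠203 < ∠021` -/
lemma c3 : Real.arccos (39 / 89) < Real.arccos (25 / (√89 * √50)) := by
  have h := s89
  have h' := s50
  have hp : (9.43 : ℝ) * 7.07 < √89 * √50 := by
    apply mul_lt_mul'' h.1 h'.1 <;> norm_num
  apply arccos_lt
  · have : (0:ℝ) ≤ 25 / (√89 * √50) := by positivity
    linarith
  · norm_num
  · rw [div_lt_div_iff₀ (by linarith) (by norm_num)]
    nlinarith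

lemma curv_lt2 : curvature P 2 < curvature P 0 := by
  rw [curv0, curv2, a102, a103, a203, a021, a023, a123]
  linarith [c1, c2, c3]

lemma curv_lt3 : curvature P 3 < curvature P 0 := by
  rw [curv0, curv3, a102, a103, a203, a031, a032, a132]
  linarith [c1, c2, c3]

lemma d23 : dist (P 2) (P 3) = 10 := by
  rw [dist_eq', ← sqrt100]
  congr 1
  simp [P]
  norm_num

/-- all other edges are shorter than the edge `{2, 3}` -/
lemma others (k l : Fin 4) (h : ¬ (k = 2 ∧ l = 3)) (h' : ¬ (k = 3 ∧ l = 2)) :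
    dist (P k) (P l) < 10 := by
  rw [dist_eq', ← sqrt100]
  apply Real.sqrt_lt_sqrt (by positivity)
  fin_cases k <;> fin_cases l <;> simp [P] at h h' ⊢ <;> norm_num

lemma longest : IsLongestEdge P 2 3 := by
  refine ⟨by decide, fun k l => ?_⟩
  rw [d23]
  by_cases h : k = 2 ∧ l = 3
  · rw [h.1, h.2, d23]
  by_cases h' : k = 3 ∧ l = 2
  · rw [h'.1, h'.2, dist_comm, d23]
  exact (others k l h h').le

/-- Q1 is false: there is a nondegenerate tetrahedron with a unique longest edge `{2, 3}` such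
that the curvature at both endpoints of this edge is strictly smaller than the curvature at the
vertex `0`; so no endpoint of the longest edge is a vertex of largest curvature. -/
theorem result :
    ∃ p : Fin 4 → E3, AffineIndependent ℝ p ∧ IsLongestEdge p 2 3 ∧
      (∀ k l : Fin 4, ¬ (k = 2 ∧ l = 3) → ¬ (k = 3 ∧ l = 2) →
        dist (p k) (p l) < dist (p 2) (p 3)) ∧
      curvature p 2 < curvature p 0 ∧ curvature p 3 < curvature p 0 ∧
      ¬ IsLargest p 2 ∧ ¬ IsLargest p 3 := by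
  refine ⟨P, P_indep, longest, fun k l h h' => ?_, curv_lt2, curv_lt3, fun h => ?_, fun h => ?_⟩
  · rw [d23]; exact others k l h h'
  · exact absurd (h 0) (not_le.2 curv_lt2)
  · exact absurd (h 0) (not_le.2 curv_lt3)

end Pool.Agent.Results.MP_ba4d4a_gt.Counterexample
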